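import Pool.Agent.H948.SF.Stm

/-!
# Accept all the marks or none (task SF-ACC, helper922)
-/

set_option autoImplicit false
set_option linter.all false

namespace Pool.Agent.H922.SF

open Pool.Agent.H948.SF
open MeasureTheory ProbabilityTheory Set Filter
open scoped ENNReal NNReal Nat Topology

/-- the law of the positions -/
noncomputable def pos : Measure (ℕ → U1) := Measure.infinitePi fun _ : ℕ => unif

instance instProbPos : IsProbabilityMeasure pos := by
  unfold pos; infer_instance

/-- the Poisson weights -/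
noncomputable def pw (r : ℝ) (k : ℕ) : ℝ := Real.exp (-r) * r ^ k / (k)!

theorem pw_nonneg {r : ℝ} (hr : 0 < r) (k : ℕ) : 0 ≤ pw r k := by
  unfold pw; positivity

theorem cell_box {r : ℝ} (hr : 0 < r) (k : ℕ) (B : Set (ℕ → U1)) :
    cellLaw r ({k} ×ˢ B) = ENNReal.ofReal (pw r k) * pos B := by
  unfold cellLaw
  rw [Measure.prod_prod, poissonMeasure_singleton, Real.coe_toNNReal r hr.le]
  rfl

theorem cell_univ (r : ℝ) (B : Set (ℕ → U1)) : cellLaw r (univ ×ˢ B) = pos B := by
  unfold cellLaw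
  rw [Measure.prod_prod, measure_univ, one_mul]
  rfl

theorem unif_le {c : ℝ} (h0 : 0 ≤ c) (h1 : c ≤ 1) :
    unif {u : U1 | (u : ℝ) ≤ c} = ENNReal.ofReal c := by
  rw [unif, Measure.comap_apply Subtype.val Subtype.val_injective
    (fun s hs => MeasurableSet.subtype_image measurableSet_Ioc hs) _
    (measurableSet_le measurable_subtype_coe measurable_const)]
  have e : Subtype.val '' {u : U1 | (u : ℝ) ≤ c} = Ioc (0 : ℝ) c := by
    ext x
    constructor
    · rintro ⟨u, hu, rfl⟩
      exact ⟨u.2.1, hu⟩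
    · intro hx
      exact ⟨⟨x, hx.1, hx.2.trans h1⟩, hx.2, rfl⟩
  rw [e, Real.volume_Ioc, sub_zero]

/-- the generating boxes of a cell -/
def QQ : Set (Set Cell) :=
  image2 (fun x1 x2 => x1 ×ˢ x2) (range fun k : ℕ => ({k} : Set ℕ)) {s : Set (ℕ → U1) | MeasurableSet s}

theorem pi_QQ : IsPiSystem QQ := by
  refine IsPiSystem.prod ?_ (MeasurableSpace.isPiSystem_measurableSet)
  rintro _ ⟨k, rfl⟩ _ ⟨l, rfl⟩ ⟨x, hx1, hx2⟩
  have h1 : x = k := hx1
  have h2 : x = l := hx2
  refine ⟨k, ?_⟩
  subst h1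
  subst h2
  simp

theorem gen_nat : MeasurableSpace.generateFrom (range fun k : ℕ => ({k} : Set ℕ)) =
    (inferInstance : MeasurableSpace ℕ) := by
  apply le_antisymm
  · exact le_top
  · intro s _
    rw [← Set.biUnion_of_singleton s]
    refine MeasurableSet.biUnion (Set.to_countable s) fun k _ => ?_
    exact MeasurableSpace.measurableSet_generateFrom ⟨k, rfl⟩

theorem gen_QQ : MeasurableSpace.generateFrom QQ = (inferInstance : MeasurableSpace Cell) := by
  refine generateFrom_eq_prod gen_nat MeasurableSpace.generateFrom_measurableSet ?_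
    isCountablySpanning_measurableSet
  refine ⟨fun k => {k}, fun k => ⟨k, rfl⟩, ?_⟩
  rw [Set.iUnion_eq_univ_iff]
  intro x
  exact ⟨x, rfl⟩

/-- spanning sets -/
noncomputable def span (r : ℝ) : (cellLaw r).FiniteSpanningSetsIn QQ where
  set := fun k => {k} ×ˢ univ
  set_mem := fun k => by
    refine ⟨{k}, ⟨k, rfl⟩, univ, ?_, rfl⟩
    show MeasurableSet (univ : Set (ℕ → U1))
    exact MeasurableSet.univ
  finite := fun k => measure_lt_top _ _
  spanning := by
    rw [Set.iUnion_eq_univ_iff]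
    intro x
    exact ⟨x.1, rfl, trivial⟩

section

variable {T : Type} [Fintype T]

/-- the boxes -/
def box (κ : T → ℕ) (B : T → Set (ℕ → U1)) : Set (T → Cell) :=
  Set.univ.pi fun t => {κ t} ×ˢ B t

theorem mem_box {κ : T → ℕ} {B : T → Set (ℕ → U1)} {x : T → Cell} :
    x ∈ box κ B ↔ ∀ t, (x t).1 = κ t ∧ (x t).2 ∈ B t := by
  unfold box
  rw [Set.mem_univ_pi]
  exact Iff.rfl

theorem box_meas {κ : T → ℕ} {B : T → Set (ℕ → U1)} (hB : ∀ t, MeasurableSet (B t)) :
    MeasurableSet (box κ B) :=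
  MeasurableSet.univ_pi fun t => (measurableSet_singleton _).prod (hB t)

/-- Both measures of the slices determine the measure of the zero slice. -/
theorem total (M : Measure (T → Cell)) {B : T → Set (ℕ → U1)} (hB : ∀ t, MeasurableSet (B t)) :
    M (Set.univ.pi fun t => (univ : Set ℕ) ×ˢ B t) = ∑' κ : T → ℕ, M (box κ B) := by
  rw [← measure_iUnion]
  · congr 1
    ext x
    rw [Set.mem_univ_pi, Set.mem_iUnion]
    constructor
    · intro h
      exact ⟨fun t => (x t).1, mem_box.2 fun t => ⟨rfl, (h t).2⟩⟩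
    · rintro ⟨κ, h⟩ t
      exact ⟨trivial, (mem_box.1 h t).2⟩
  · intro κ κ' hne
    rw [Function.onFun, Set.disjoint_left]
    intro x h1 h2
    apply hne
    funext t
    rw [← (mem_box.1 h1 t).1, ← (mem_box.1 h2 t).1]
  · exact fun κ => box_meas hB

end

theorem split {β : Type} (b : β) (F G : β → ℝ≥0∞) (h : ∀ x, x ≠ b → F x = G x)
    (hs : ∑' x, F x = ∑' x, G x) (hG : ∑' x, G x ≠ ∞) : F b = G b := by
  classical
  have h4 : (∑' x, if x = b then 0 else F x) = ∑' x, if x = b then 0 else G x := by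
    refine tsum_congr fun x => ?_
    by_cases hx : x = b
    · rw [if_pos hx, if_pos hx]
    · rw [if_neg hx, if_neg hx, h x hx]
  have h5 : (∑' x, if x = b then 0 else G x) ≠ ∞ := by
    refine ne_top_of_le_ne_top hG (ENNReal.tsum_le_tsum fun x => ?_)
    split_ifs
    · exact zero_le
    · exact le_rfl
  rw [ENNReal.tsum_eq_add_tsum_ite b, ENNReal.tsum_eq_add_tsum_ite (f := G) b, h4] at hs
  exact (ENNReal.add_left_inj h5).1 hs

theorem key_real {T : Type} [Fintype T] {lam α p : ℝ} (hl : 0 < lam) (hα : 0 < α) (hp : 0 < p)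
    (κ : T → ℕ) :
    (∏ t, pw lam (κ t)) * (p * ((α / lam) ^ (∑ t, κ t) *
      Real.exp ((lam - α) * Fintype.card T) / p)) = ∏ t, pw α (κ t) := by
  have h1 : p * ((α / lam) ^ (∑ t, κ t) * Real.exp ((lam - α) * Fintype.card T) / p) =
      (∏ t, (α / lam) ^ (κ t)) * ∏ _t : T, Real.exp (lam - α) := by
    rw [Finset.prod_pow_eq_pow_sum, Finset.prod_const, Finset.card_univ, ← Real.exp_nat_mul,
      mul_comm (lam - α)]
    field_simp
  rw [h1, ← Finset.prod_mul_distrib, ← Finset.prod_mul_distrib]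
  refine Finset.prod_congr rfl fun t _ => ?_
  unfold pw
  have h2 : Real.exp (-α) = Real.exp (-lam) * Real.exp (lam - α) := by
    rw [← Real.exp_add]
    congr 1
    ring
  rw [h2, div_pow]
  have h3 : lam ^ κ t ≠ 0 := by positivity
  have h4 : ((κ t)! : ℝ) ≠ 0 := by positivity
  field_simp

theorem acc_le {n : ℕ} {lam α p : ℝ} (hl : 0 < lam) (hα : 0 < α) (hp : 0 < p) (hp1 : p ≤ 1)
    (h : α * Real.exp (lam * n) ≤ lam * p) {m : ℕ} (hm : 1 ≤ m) :
    (α / lam) ^ m * Real.exp ((lam - α) * n) / p ≤ 1 := by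
  have he : 1 ≤ Real.exp (lam * n) := Real.one_le_exp (by positivity)
  have h1 : α / lam ≤ 1 := by
    rw [div_le_one hl]
    nlinarith
  have h2 : (α / lam) ^ m ≤ α / lam := by
    calc (α / lam) ^ m ≤ (α / lam) ^ 1 := pow_le_pow_of_le_one (by positivity) h1 hm
      _ = α / lam := pow_one _
  have h3 : Real.exp ((lam - α) * n) ≤ Real.exp (lam * n) := by
    apply Real.exp_le_exp.2
    have : 0 ≤ α * n := by positivity
    nlinarith
  rw [div_le_one hp]
  calc (α / lam) ^ m * Real.exp ((lam - α) * n) ≤ α / lam * Real.exp (lam * n) :=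
        mul_le_mul h2 h3 (Real.exp_pos _).le (by positivity)
    _ = α * Real.exp (lam * n) / lam := by ring
    _ ≤ p := by rw [div_le_iff₀ hl]; linarith

open Classical in
theorem s_acc : S_ACC := by
  intro T Ω _ _ P _ C Gs Va lam α p hl hα hp hle hC hGs hVa hpG hlaw hVl hind hjoint
  have hp1 : p ≤ 1 := by
    have h1 : ENNReal.ofReal p ≤ 1 := by rw [← hpG]; exact prob_le_one
    rwa [ENNReal.ofReal_le_one] at h1
  obtain ⟨acc, hacc⟩ : ∃ acc : ℕ → ℝ, ∀ m, acc m =
      (α / lam) ^ m * Real.exp ((lam - α) * Fintype.card T) / p := ⟨_, fun m => rfl⟩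
  have hacc0 : ∀ m, 0 ≤ acc m := fun m => by rw [hacc]; positivity
  have hacc1 : ∀ m, 1 ≤ m → acc m ≤ 1 := fun m hm => by
    rw [hacc]; exact acc_le hl hα hp hp1 hle hm
  obtain ⟨D, hD⟩ : ∃ D : Set Ω, D = {ω | ω ∈ Gs ∧ (Va ω : ℝ) ≤ acc (∑ t, (C t ω).1)} :=
    ⟨_, rfl⟩
  have hmemD : ∀ ω, ω ∈ D ↔ ω ∈ Gs ∧ (Va ω : ℝ) ≤ acc (∑ t, (C t ω).1) := by
    intro ω; rw [hD]; rfl
  have hDm : MeasurableSet D := by
    rw [hD]
    refine hGs.inter (measurableSet_le (measurable_subtype_coe.comp hVa) ?_)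
    refine (measurable_of_countable acc).comp ?_
    exact Finset.measurable_sum _ fun t _ => measurable_fst.comp (hC t)
  obtain ⟨C', hC'⟩ : ∃ C' : T → Ω → Cell, ∀ t ω, C' t ω =
      if ω ∈ D then C t ω else (0, (C t ω).2) := ⟨_, fun t ω => rfl⟩
  have hC'm : ∀ t, Measurable (C' t) := by
    intro t
    have e : C' t = fun ω => if ω ∈ D then C t ω else (0, (C t ω).2) := funext fun ω => hC' t ω
    rw [e]
    exact Measurable.ite hDm (hC t) (measurable_const.prodMk (measurable_snd.comp (hC t)))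
  have hC'snd : ∀ t ω, (C' t ω).2 = (C t ω).2 := by
    intro t ω
    rw [hC']
    split_ifs <;> rfl
  have hC'out : ∀ ω, ω ∉ D → ∀ t, (C' t ω).1 = 0 := by
    intro ω hω t
    rw [hC', if_neg hω]
  have hC'in : ∀ ω, ω ∈ D → ∀ t, C' t ω = C t ω := by
    intro ω hω t
    rw [hC', if_pos hω]
  have hCall : Measurable fun ω => fun t => C t ω := measurable_pi_lambda _ hC
  have hC'all : Measurable fun ω => fun t => C' t ω := measurable_pi_lambda _ hC'm
  -- the law of the given cells
  have hlawC : ∀ A : Set (T → Cell), MeasurableSet A → P {ω | (fun t => C t ω) ∈ A} =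
      (Measure.pi fun _ : T => cellLaw lam) A := by
    intro A hA
    have h1 := (iIndepFun_iff_map_fun_eq_pi_map fun t => (hC t).aemeasurable).1 hind
    have h2 : (Measure.pi fun t => P.map (C t)) = Measure.pi fun _ : T => cellLaw lam := by
      congr 1
      funext t
      exact hlaw t
    rw [← h2, ← h1, Measure.map_apply hCall hA]
    rfl
  -- the nonzero boxes
  have hbox : ∀ (κ : T → ℕ) (B : T → Set (ℕ → U1)), (∀ t, MeasurableSet (B t)) → κ ≠ 0 →
      (P.map fun ω => fun t => C' t ω) (box κ B) = ∏ t, cellLaw α ({κ t} ×ˢ B t) := by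
    intro κ B hB hκ
    have hm : 1 ≤ ∑ t, κ t := by
      by_contra hlt
      apply hκ
      have h0 : ∑ t, κ t = 0 := by omega
      funext t
      exact (Finset.sum_eq_zero_iff.1 h0) t (Finset.mem_univ t)
    have e : (fun ω => fun t => C' t ω) ⁻¹' (box κ B) =
        {ω | (fun t => C t ω) ∈ box κ B} ∩ Gs ∩ {ω | Va ω ∈ {u : U1 | (u : ℝ) ≤ acc (∑ t, κ t)}} := by
      ext ω
      rw [Set.mem_preimage, mem_box, Set.mem_inter_iff, Set.mem_inter_iff, Set.mem_setOf_eq, mem_box]
      constructor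
      · intro h
        have hωD : ω ∈ D := by
          by_contra hω
          apply hκ
          funext t
          rw [← (h t).1]
          exact hC'out ω hω t
        have hC1 : ∀ t, (C t ω).1 = κ t ∧ (C t ω).2 ∈ B t := by
          intro t
          rw [← hC'in ω hωD t]
          exact h t
        have hD1 := (hmemD ω).1 hωD
        refine ⟨⟨hC1, hD1.1⟩, ?_⟩
        have e2 : ∑ t, (C t ω).1 = ∑ t, κ t := Finset.sum_congr rfl fun t _ => (hC1 t).1
        rw [e2] at hD1
        exact hD1.2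
      · rintro ⟨⟨hC1, hG⟩, hV⟩
        have e2 : ∑ t, (C t ω).1 = ∑ t, κ t := Finset.sum_congr rfl fun t _ => (hC1 t).1
        have hωD : ω ∈ D := by
          rw [hmemD, e2]
          exact ⟨hG, hV⟩
        intro t
        rw [hC'in ω hωD t]
        exact hC1 t
    have hBm : MeasurableSet {u : U1 | (u : ℝ) ≤ acc (∑ t, κ t)} :=
      measurableSet_le measurable_subtype_coe measurable_const
    rw [Measure.map_apply hC'all (box_meas hB), e, hjoint _ _ (box_meas hB) hBm,
      hlawC _ (box_meas hB), hpG]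
    have hV : P {ω | Va ω ∈ {u : U1 | (u : ℝ) ≤ acc (∑ t, κ t)}} =
        ENNReal.ofReal (acc (∑ t, κ t)) := by
      have h1 := unif_le (hacc0 _) (hacc1 _ hm)
      rw [← hVl, Measure.map_apply hVa hBm] at h1
      exact h1
    rw [hV]
    unfold box
    rw [Measure.pi_pi]
    simp only [cell_box hl, cell_box hα]
    rw [Finset.prod_mul_distrib, Finset.prod_mul_distrib,
      ← ENNReal.ofReal_prod_of_nonneg fun t _ => pw_nonneg hl _,
      ← ENNReal.ofReal_prod_of_nonneg fun t _ => pw_nonneg hα _, ← key_real hl hα hp κ, ← hacc,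
      ENNReal.ofReal_mul (Finset.prod_nonneg fun t _ => pw_nonneg hl _),
      ENNReal.ofReal_mul hp.le]
    ring
  -- the law of the new cells
  have hpi : (Measure.pi fun _ : T => cellLaw α) = P.map fun ω => fun t => C' t ω := by
    refine Measure.pi_eq_generateFrom (C := fun _ => QQ) (fun _ => gen_QQ) (fun _ => pi_QQ)
      (fun _ => span α) ?_
    intro s hs
    have hs' : ∀ t, ∃ (k : ℕ) (B : Set (ℕ → U1)), MeasurableSet B ∧ s t = {k} ×ˢ B := by
      intro t
      obtain ⟨_, ⟨k, rfl⟩, B, hB, h⟩ := hs t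
      exact ⟨k, B, hB, h.symm⟩
    choose κ B hB hsB using hs'
    have e1 : (Set.univ.pi s) = box κ B := by
      unfold box
      congr 1
      funext t
      exact hsB t
    have e2 : ∀ t, s t = {κ t} ×ˢ B t := hsB
    rw [e1]
    simp only [e2]
    by_cases hκ : κ = 0
    · -- the zero box
      have h1 := total (P.map fun ω => fun t => C' t ω) hB
      have h2 := total (Measure.pi fun _ : T => cellLaw α) hB
      have h3 : (P.map fun ω => fun t => C' t ω) (Set.univ.pi fun t => (univ : Set ℕ) ×ˢ B t) =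
          (Measure.pi fun _ : T => cellLaw α) (Set.univ.pi fun t => (univ : Set ℕ) ×ˢ B t) := by
        have hm : MeasurableSet (Set.univ.pi fun t => (univ : Set ℕ) ×ˢ B t) :=
          MeasurableSet.univ_pi fun t => MeasurableSet.univ.prod (hB t)
        have e3 : (fun ω => fun t => C' t ω) ⁻¹' (Set.univ.pi fun t => (univ : Set ℕ) ×ˢ B t) =
            {ω | (fun t => C t ω) ∈ Set.univ.pi fun t => (univ : Set ℕ) ×ˢ B t} := by
          ext ω
          rw [Set.mem_preimage, Set.mem_setOf_eq, Set.mem_univ_pi, Set.mem_univ_pi]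
          constructor
          · intro h t
            exact ⟨trivial, by rw [← hC'snd]; exact (h t).2⟩
          · intro h t
            exact ⟨trivial, by rw [hC'snd]; exact (h t).2⟩
        rw [Measure.map_apply hC'all hm, e3, hlawC _ hm, Measure.pi_pi, Measure.pi_pi]
        simp only [cell_univ]
      rw [h1, h2] at h3
      have h5 : ∑' κ : T → ℕ, (Measure.pi fun _ : T => cellLaw α) (box κ B) ≠ ∞ := by
        rw [← h2]
        exact measure_ne_top _ _
      have h7 := split (0 : T → ℕ) (fun κ => (P.map fun ω => fun t => C' t ω) (box κ B))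
        (fun κ => (Measure.pi fun _ : T => cellLaw α) (box κ B)) (fun κ hκ' => by
          show (P.map fun ω => fun t => C' t ω) (box κ B) =
            (Measure.pi fun _ : T => cellLaw α) (box κ B)
          rw [hbox κ B hB hκ']
          unfold box
          rw [Measure.pi_pi]) h3 h5
      rw [hκ]
      refine h7.trans ?_
      unfold box
      rw [Measure.pi_pi]
    · exact hbox κ B hB hκ
  have hmarg : ∀ t, P.map (C' t) = cellLaw α := by
    intro t
    have h1 := (measurePreserving_eval (fun _ : T => cellLaw α) t).map_eq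
    rw [hpi, Measure.map_map (measurable_pi_apply t) hC'all] at h1
    exact h1
  refine ⟨C', hC'm, ?_, hmarg, ?_, ?_, ?_⟩
  · rw [iIndepFun_iff_map_fun_eq_pi_map fun t => (hC'm t).aemeasurable, ← hpi]
    congr 1
    funext t
    exact (hmarg t).symm
  · intro ω t
    by_cases h : ω ∈ D
    · exact Or.inl (hC'in ω h t)
    · right
      rw [hC', if_neg h]
  · intro ω hω t
    exact hC'out ω (fun h => hω ((hmemD ω).1 h).1) t
  · intro ω ω' h1 h2 h3 t
    have e : ω ∈ D ↔ ω' ∈ D := by
      rw [hmemD, hmemD, h2, h3]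
      have : ∑ t, (C t ω).1 = ∑ t, (C t ω').1 := Finset.sum_congr rfl fun t _ => by rw [h1 t]
      rw [this]
    rw [hC', hC', h1 t]
    by_cases h : ω ∈ D
    · rw [if_pos h, if_pos (e.1 h)]
    · rw [if_neg h, if_neg (fun h' => h (e.2 h'))]

end Pool.Agent.H922.SF
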